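import Mathlib

/-!
# The super-imperfect powers of two

Outline.  Let `n = 2^j`, `m = β(2^j)`, so `3 m = 2^(j+1) + (-1)^j` and `β(m) = 2^(j-1)`.  For a prime
power `q^a ∥ m` the number `β(q^a)` divides a power of two; for even `a` it is odd and larger than one,
so `a` is odd, and then `q - 1` divides it.  So `q - 1` is a power of two for every prime `q ∣ m`, and
the order of `2` modulo `q` is a power of two.  For odd `j` this forces `j + 1 = 2^t`, and `t ≤ 5` as
`641 ∣ 2^64 - 1`; for even `j` it forces `m` to be a power of `3`, and `j = 2`.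
-/

set_option autoImplicit false

namespace Pool.Agent.Results.MP_a13529_nt.PowersOfTwo

open Finset

/-- `b p a = p^a - p^(a-1) + ... + (-1)^a` -/
def b (p : ℕ) : ℕ → ℕ
  | 0 => 1
  | a + 1 => p ^ (a + 1) - b p a

/-- the alternating sum-of-divisors function -/
noncomputable def beta (n : ℕ) : ℕ := n.factorization.prod b

theorem b_le {p : ℕ} (a : ℕ) : b p a ≤ p ^ a := by
  cases a with
  | zero => simp [b]
  | succ a => rw [b]; omega

theorem b_add {p : ℕ} (hp : 1 ≤ p) (a : ℕ) : b p (a + 1) + b p a = p ^ (a + 1) := by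
  have h1 := b_le (p := p) a
  have h2 : p ^ a ≤ p ^ (a + 1) := Nat.pow_le_pow_right hp (by omega)
  rw [b]
  omega

theorem b_two (a : ℕ) : 3 * (b 2 a : ℤ) = 2 ^ (a + 1) + (-1) ^ a := by
  induction a with
  | zero => simp [b]
  | succ a ih =>
    have h := b_add (p := 2) (by norm_num) a
    have h' : (b 2 (a + 1) : ℤ) + b 2 a = 2 ^ (a + 1) := by exact_mod_cast h
    rw [pow_succ (2 : ℤ) (a + 1), pow_succ (-1 : ℤ) a]
    linarith

theorem b_parity {p : ℕ} (hp : p % 2 = 1) (a : ℕ) : (b p a + a) % 2 = 1 := by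
  induction a with
  | zero => simp [b]
  | succ a ih =>
    have h := b_add (p := p) (by omega) a
    have h1 : p ^ (a + 1) % 2 = 1 := by rw [Nat.pow_mod, hp]; simp
    omega

theorem b_gt {p : ℕ} (hp : 3 ≤ p) {a : ℕ} (ha : 1 ≤ a) : 1 < b p a := by
  obtain ⟨c, rfl⟩ : ∃ c, a = c + 1 := ⟨a - 1, by omega⟩
  have h1 := b_add (p := p) (by omega) c
  have h2 := b_le (p := p) c
  have h3 : 1 ≤ p ^ c := Nat.one_le_pow _ _ (by omega)
  have h4 : p ^ (c + 1) = p ^ c * p := pow_succ _ _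
  have h5 : p ^ c * 3 ≤ p ^ c * p := Nat.mul_le_mul_left _ hp
  omega

theorem b_dvd {p : ℕ} (hp : 1 ≤ p) (c : ℕ) : (p - 1) ∣ b p (2 * c + 1) := by
  have h : ((p : ℤ) - 1) ∣ (b p (2 * c + 1) : ℤ) := by
    induction c with
    | zero =>
      have h := b_add hp 0
      have h' : (b p (0 + 1) : ℤ) + b p 0 = (p : ℤ) ^ (0 + 1) := by exact_mod_cast h
      refine ⟨1, ?_⟩
      simp only [b] at h' ⊢
      simp at h' ⊢
      linarith
    | succ c ih =>
      have h1 := b_add hp (2 * c + 1)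
      have h2 := b_add hp (2 * c + 1 + 1)
      have h1' : (b p (2 * c + 1 + 1) : ℤ) + b p (2 * c + 1) = (p : ℤ) ^ (2 * c + 1 + 1) := by
        exact_mod_cast h1
      have h2' : (b p (2 * c + 1 + 1 + 1) : ℤ) + b p (2 * c + 1 + 1) =
          (p : ℤ) ^ (2 * c + 1 + 1 + 1) := by exact_mod_cast h2
      obtain ⟨x, hx⟩ := ih
      refine ⟨x + (p : ℤ) ^ (2 * c + 1 + 1), ?_⟩
      have e : 2 * (c + 1) + 1 = 2 * c + 1 + 1 + 1 := by ring
      rw [e]
      rw [pow_succ (p : ℤ) (2 * c + 1 + 1)] at h2'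
      linarith
  have h' : ((p - 1 : ℕ) : ℤ) ∣ (b p (2 * c + 1) : ℤ) := by
    rw [Nat.cast_sub hp]; simpa using h
  exact_mod_cast h'

theorem beta_two_pow (j : ℕ) : beta (2 ^ j) = b 2 j := by
  unfold beta
  rw [Nat.prime_two.factorization_pow, Finsupp.prod_single_index (by simp [b])]

/-- prime factors of `m` when `β(m)` is a power of two -/
theorem prime_factor {m e q : ℕ} (hm : m % 2 = 1) (h : beta m = 2 ^ e) (hq : q.Prime)
    (hqm : q ∣ m) : ∃ i, q - 1 = 2 ^ i := by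
  have hm0 : m ≠ 0 := by omega
  have hqo : q % 2 = 1 := by
    rcases hq.eq_two_or_odd with h1 | h1
    · subst h1; omega
    · exact h1
  have hq3 : 3 ≤ q := by
    have := hq.two_le
    omega
  have hmem : q ∈ m.factorization.support := by
    rw [Nat.support_factorization, Nat.mem_primeFactors]
    exact ⟨hq, hqm, hm0⟩
  have hd : b q (m.factorization q) ∣ 2 ^ e := by
    rw [← h]
    unfold beta Finsupp.prod
    exact Finset.dvd_prod_of_mem (fun p => b p (m.factorization p)) hmem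
  have ha : 1 ≤ m.factorization q := by
    have := Finsupp.mem_support_iff.1 hmem
    omega
  have hpar := b_parity hqo (m.factorization q)
  have hgt := b_gt hq3 ha
  obtain ⟨i, -, hi⟩ := (Nat.dvd_prime_pow Nat.prime_two).1 hd
  have hi0 : i ≠ 0 := by
    rintro rfl
    rw [hi] at hgt
    simp at hgt
  have heven : b q (m.factorization q) % 2 = 0 := by
    rw [hi]
    obtain ⟨l, rfl⟩ : ∃ l, i = l + 1 := ⟨i - 1, by omega⟩
    rw [pow_succ]; omega
  obtain ⟨c, hc⟩ : ∃ c, m.factorization q = 2 * c + 1 := ⟨m.factorization q / 2, by omega⟩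
  have h1 := b_dvd (p := q) (by omega) c
  rw [← hc] at h1
  obtain ⟨l, -, hl⟩ := (Nat.dvd_prime_pow Nat.prime_two).1 (h1.trans hd)
  exact ⟨l, hl⟩

theorem order_lemma {q i u : ℕ} (hq : q.Prime) (h2 : q ≠ 2) (hi : q - 1 = 2 ^ i)
    (h : (2 : ZMod q) ^ (2 * u) = 1) (hu : u % 2 = 1) : q = 3 := by
  have := Fact.mk hq
  have h20 : (2 : ZMod q) ≠ 0 := by
    intro h0
    have : ((2 : ℕ) : ZMod q) = 0 := by exact_mod_cast h0
    rw [ZMod.natCast_eq_zero_iff] at this
    have := (Nat.prime_dvd_prime_iff_eq hq Nat.prime_two).1 this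
    exact h2 this
  have h1 : orderOf (2 : ZMod q) ∣ 2 * u := orderOf_dvd_of_pow_eq_one h
  have h3 : orderOf (2 : ZMod q) ∣ 2 ^ i := by
    rw [← hi]; exact ZMod.orderOf_dvd_card_sub_one h20
  obtain ⟨l, -, hl⟩ := (Nat.dvd_prime_pow Nat.prime_two).1 h3
  have hl1 : l ≤ 1 := by
    by_contra hcon
    have : 2 ^ 2 ∣ 2 * u := by
      rw [hl] at h1
      exact (pow_dvd_pow 2 (by omega)).trans h1
    omega
  have h4 : (2 : ZMod q) ^ 2 = 1 := by
    rw [← orderOf_dvd_iff_pow_eq_one, hl]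
    have : 2 ^ l ∣ 2 ^ 1 := pow_dvd_pow 2 hl1
    simpa using this
  have h5 : ((3 : ℕ) : ZMod q) = 0 := by
    have : (2 : ZMod q) ^ 2 - 1 = 0 := by rw [h4]; ring
    calc ((3 : ℕ) : ZMod q) = (2 : ZMod q) ^ 2 - 1 := by push_cast; ring
      _ = 0 := this
  rw [ZMod.natCast_eq_zero_iff] at h5
  exact (Nat.prime_dvd_prime_iff_eq hq Nat.prime_three).1 h5

/-- If the power of two `2^j` is super-imperfect, that is, `2 β(β(2^j)) = 2^j`, then `j` is one of
`1, 2, 3, 7, 15, 31`. -/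
theorem result : ∀ j : ℕ, 2 * beta (beta (2 ^ j)) = 2 ^ j →
    j = 1 ∨ j = 2 ∨ j = 3 ∨ j = 7 ∨ j = 15 ∨ j = 31 := by
  intro j hj
  rw [beta_two_pow] at hj
  rcases Nat.eq_zero_or_pos j with h0 | h0
  · subst h0
    exfalso
    omega
  obtain ⟨e, rfl⟩ : ∃ e, j = e + 1 := ⟨j - 1, by omega⟩
  have hbm : beta (b 2 (e + 1)) = 2 ^ e := by rw [pow_succ] at hj; omega
  have h3m := b_two (e + 1)
  obtain ⟨m, hm⟩ : ∃ m, m = b 2 (e + 1) := ⟨_, rfl⟩
  rw [← hm] at hbm h3m
  rcases Nat.even_or_odd (e + 1) with hev | hod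
  · -- even
    rw [hev.neg_one_pow] at h3m
    have h3 : 3 * m = 2 ^ (e + 1 + 1) + 1 := by exact_mod_cast h3m
    have hmo : m % 2 = 1 := by
      have : 2 ^ (e + 1 + 1) % 2 = 0 := by rw [pow_succ]; omega
      omega
    have hu : (e + 1 + 1) % 2 = 1 := by
      obtain ⟨x, hx⟩ := hev
      omega
    have hall : ∀ {q : ℕ}, q.Prime → q ∣ m → q = 3 := by
      intro q hq hqm
      obtain ⟨i, hi⟩ := prime_factor hmo hbm hq hqm
      have h2 : q ≠ 2 := by
        rintro rfl
        omega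
      refine order_lemma hq h2 hi (u := e + 1 + 1) ?_ hu
      have h5 : ((2 ^ (e + 1 + 1) + 1 : ℕ) : ZMod q) = 0 := by
        rw [ZMod.natCast_eq_zero_iff, ← h3]
        exact Dvd.dvd.mul_left hqm 3
      push_cast at h5
      have h6 : (2 : ZMod q) ^ (e + 1 + 1) = -1 := by linear_combination h5
      rw [mul_comm, pow_mul, h6]
      ring
    have hpow := Nat.eq_prime_pow_of_unique_prime_dvd (n := m) (p := 3) (by omega) hall
    obtain ⟨a, ha⟩ : ∃ a, a = m.primeFactorsList.length := ⟨_, rfl⟩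
    rw [← ha] at hpow
    have h7 : 3 ^ (a + 1) = 2 ^ (e + 1 + 1) + 1 := by rw [← h3, hpow, pow_succ]; ring
    have he1 : 1 ≤ e := by
      obtain ⟨x, hx⟩ := hev
      omega
    obtain ⟨f, rfl⟩ : ∃ f, e = f + 1 := ⟨e - 1, by omega⟩
    have h8 : 2 ^ (f + 1 + 1 + 1) = 8 * 2 ^ f := by rw [pow_succ, pow_succ, pow_succ]; ring
    -- `a + 1` is even
    have hae : (a + 1) % 2 = 0 := by
      by_contra hcon
      obtain ⟨c, hc⟩ : ∃ c, a + 1 = 2 * c + 1 := ⟨(a + 1) / 2, by omega⟩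
      rw [hc, pow_succ, pow_mul] at h7
      have h9 : (3 ^ 2) ^ c % 8 = 1 := by rw [Nat.pow_mod]; simp
      omega
    obtain ⟨c, hc⟩ : ∃ c, a + 1 = c + c := ⟨(a + 1) / 2, by omega⟩
    have hc1 : 1 ≤ c := by omega
    rw [hc, pow_add] at h7
    obtain ⟨y, hy⟩ : ∃ y, 3 ^ c = y + 1 := ⟨3 ^ c - 1, by
      have := Nat.one_le_pow c 3 (by norm_num); omega⟩
    rw [hy] at h7
    have h10 : y * (y + 2) = 2 ^ (f + 1 + 1 + 1) := by nlinarith
    obtain ⟨s, -, hs⟩ := (Nat.dvd_prime_pow Nat.prime_two).1 (⟨y + 2, h10.symm⟩ : y ∣ 2 ^ (f + 1 + 1 + 1))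
    obtain ⟨r, -, hr⟩ := (Nat.dvd_prime_pow Nat.prime_two).1
      (⟨y, by rw [← h10]; ring⟩ : y + 2 ∣ 2 ^ (f + 1 + 1 + 1))
    have hs1 : s = 1 := by
      rcases (show s = 0 ∨ s = 1 ∨ 2 ≤ s by omega) with h | h | h
      · exfalso
        subst h
        have h11 : y = 1 := by simpa using hs
        rw [h11] at hr
        rcases (show r = 0 ∨ r = 1 ∨ 2 ≤ r by omega) with h | h | h
        · subst h; norm_num at hr
        · subst h; norm_num at hr
        · have : 2 ^ 2 ∣ 2 ^ r := pow_dvd_pow 2 h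
          omega
      · exact h
      · exfalso
        have h11 : 2 ^ 2 ∣ 2 ^ s := pow_dvd_pow 2 h
        have h12 : r ≠ 0 ∧ r ≠ 1 := by
          constructor
          · rintro rfl; simp at hr
          · rintro rfl
            have : y = 0 := by omega
            rw [this] at hs
            have := Nat.pos_of_ne_zero (pow_ne_zero s (two_ne_zero (α := ℕ)))
            omega
        have h13 : 2 ^ 2 ∣ 2 ^ r := pow_dvd_pow 2 (by omega)
        omega
    subst hs1
    have hy2 : y = 2 := by simpa using hs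
    subst hy2
    have h14 : 2 ^ f = 2 ^ 0 := by omega
    have := Nat.pow_right_injective (le_refl 2) h14
    omega
  · -- odd
    rw [hod.neg_one_pow] at h3m
    have hpos : 1 ≤ 2 ^ (e + 1 + 1) := Nat.one_le_two_pow
    have h3 : 3 * m + 1 = 2 ^ (e + 1 + 1) := by
      have : (3 * (m : ℤ) + 1) = 2 ^ (e + 1 + 1) := by linarith
      exact_mod_cast this
    have hmo : m % 2 = 1 := by
      have : 2 ^ (e + 1 + 1) % 2 = 0 := by rw [pow_succ]; omega
      omega
    have hall : ∀ {q : ℕ}, q.Prime → q ∣ 3 * m → ∃ i, q - 1 = 2 ^ i := by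
      intro q hq hqm
      rcases (hq.dvd_mul).1 hqm with h | h
      · have := (Nat.prime_dvd_prime_iff_eq hq Nat.prime_three).1 h
        exact ⟨1, by omega⟩
      · exact prime_factor hmo hbm hq h
    obtain ⟨t, u, hu, hju⟩ := Nat.exists_eq_two_pow_mul_odd (n := e + 1 + 1) (by omega)
    have hu1 : u = 1 := by
      by_contra hne
      have hu3 : 3 ≤ u := by
        obtain ⟨x, hx⟩ := hu
        omega
      have h8 : 2 ^ 3 ≤ 2 ^ u := Nat.pow_le_pow_right (by norm_num) hu3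
      obtain ⟨q, hq, hqd⟩ := Nat.exists_prime_and_dvd (show 2 ^ u - 1 ≠ 1 by omega)
      have hdd : 2 ^ u - 1 ∣ 3 * m := by
        have h9 : 2 ^ u - 1 ∣ 2 ^ (e + 1 + 1) - 1 := by
          rw [hju, mul_comm, pow_mul]
          simpa using Nat.sub_dvd_pow_sub_pow (2 ^ u) 1 (2 ^ t)
        have h10 : 2 ^ (e + 1 + 1) - 1 = 3 * m := by omega
        rwa [h10] at h9
      obtain ⟨i, hi⟩ := hall hq (hqd.trans hdd)
      have := Fact.mk hq
      have h11 : (2 : ZMod q) ^ u = 1 := by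
        have h12 : ((2 ^ u - 1 : ℕ) : ZMod q) = 0 := (ZMod.natCast_eq_zero_iff _ _).2 hqd
        rw [Nat.cast_sub (by omega)] at h12
        push_cast at h12
        linear_combination h12
      have hq2 : q ≠ 2 := by
        rintro rfl
        obtain ⟨x, hx⟩ := hqd
        have : 2 ^ u % 2 = 0 := by
          obtain ⟨y, rfl⟩ : ∃ y, u = y + 1 := ⟨u - 1, by omega⟩
          rw [pow_succ]; omega
        omega
      have hq3 := order_lemma hq hq2 hi (u := u) (by rw [mul_comm, pow_mul, h11]; ring)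
        (Nat.odd_iff.1 hu)
      obtain ⟨w, hw⟩ := hqd
      rw [hq3] at hw
      obtain ⟨x, hx⟩ := hu
      have h13 : 2 ^ u % 3 = 2 := by
        rw [hx, pow_succ, pow_mul, Nat.mul_mod, Nat.pow_mod]
        simp
      omega
    subst hu1
    rw [mul_one] at hju
    have ht : t ≤ 5 := by
      by_contra hcon
      have h641 : 641 ∣ 3 * m := by
        have h9 : 2 ^ 64 - 1 ∣ 2 ^ (e + 1 + 1) - 1 := by
          obtain ⟨x, rfl⟩ : ∃ x, t = 6 + x := ⟨t - 6, by omega⟩
          rw [hju, pow_add, show (2 : ℕ) ^ 6 = 64 by norm_num, pow_mul]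
          have h12 := Nat.sub_dvd_pow_sub_pow (2 ^ 64) 1 (2 ^ x)
          rw [one_pow] at h12
          exact h12
        have h10 : 2 ^ (e + 1 + 1) - 1 = 3 * m := by omega
        rw [h10] at h9
        exact (show 641 ∣ 2 ^ 64 - 1 by norm_num).trans h9
      obtain ⟨i, hi⟩ := hall (by norm_num : Nat.Prime 641) h641
      have h5 : 5 ∣ 2 ^ i := ⟨128, by omega⟩
      have := Nat.prime_five.dvd_of_dvd_pow h5
      omega
    rcases (show t = 0 ∨ t = 1 ∨ t = 2 ∨ t = 3 ∨ t = 4 ∨ t = 5 by omega) with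
      h | h | h | h | h | h <;> subst h <;> norm_num at hju <;> omega

end Pool.Agent.Results.MP_a13529_nt.PowersOfTwo
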